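import Pool.Agent.KS6_95.FP.Count2

set_option autoImplicit false

/-!
Frobenius partitions of nonabelian free groups: the normal members, the ones with and without
complements, their number, uniqueness, and members which are not isomorphic.
-/

namespace Pool.Agent.Results.MP_c23b5e_al.FreeGroups

open Pool.Agent.KS6_95.FP

universe u

/-- Let `F` be a nonabelian free group.

1. A subgroup `N` is the normal member of a nontrivial Frobenius partition of `F` iff `N` is
   normal, different from `F`, and `F / N` is torsion-free.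
2. For a normal subgroup `N`, some nontrivial Frobenius partition with the normal member `N`
   contains a complement of `N` iff `F / N` is free and `N` is neither `1` nor `F`.
3. For a normal subgroup `N`, some nontrivial Frobenius partition with the normal member `N`
   contains no `A` with `N A = F` iff `F / N` is torsion-free and not cyclic.
4. The number of the `N` in 3. is `2 ^ |F|`.
5. If `F / N` has no nonabelian free subgroup, then the partition with the normal member `N` is
   unique up to the trivial subgroup: it consists of the centralizers of the elements outside `N`.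
6. If `F` is not generated by two elements, then there is a nontrivial Frobenius partition which
   contains a complement `A` of `N` and a nontrivial `B` which is not isomorphic to `A`. -/
theorem result {F : Type u} [Group F] [IsFreeGroup F] (hF : ∃ a b : F, a * b ≠ b * a) :
    (∀ N : Subgroup F, (∃ 𝒜, IsFrobeniusPartition N 𝒜) ↔ N.Normal ∧ N ≠ ⊤ ∧ Isolated N) ∧
    (∀ (N : Subgroup F) [N.Normal],
      (∃ 𝒜, IsFrobeniusPartition N 𝒜 ∧ ∃ A ∈ 𝒜, N ⊔ A = ⊤ ∧ N ⊓ A = ⊥) ↔
        N ≠ ⊥ ∧ N ≠ ⊤ ∧ IsFreeGroup (F ⧸ N)) ∧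
    (∀ (N : Subgroup F) [N.Normal],
      (∃ 𝒜, IsFrobeniusPartition N 𝒜 ∧ ∀ A ∈ 𝒜, N ⊔ A ≠ ⊤) ↔
        Isolated N ∧ ¬ IsCyclic (F ⧸ N)) ∧
    Cardinal.mk {N : Subgroup F // ∃ 𝒜, IsFrobeniusPartition N 𝒜 ∧ ∀ A ∈ 𝒜, N ⊔ A ≠ ⊤} =
      2 ^ Cardinal.mk F ∧
    (∀ (N : Subgroup F) [N.Normal],
      (∀ H : Subgroup (F ⧸ N), IsFreeGroup H → ∀ x ∈ H, ∀ y ∈ H, x * y = y * x) →
        ∀ 𝒜, IsFrobeniusPartition N 𝒜 →
          𝒜 \ {⊥} = {A | ∃ g, g ∉ N ∧ A = Subgroup.centralizer {g}}) ∧
    ((∀ a b : F, Subgroup.closure {a, b} ≠ ⊤) →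
      ∃ (N : Subgroup F) (𝒜 : Set (Subgroup F)), IsFrobeniusPartition N 𝒜 ∧
        ∃ A ∈ 𝒜, ∃ B ∈ 𝒜, N ⊔ A = ⊤ ∧ N ⊓ A = ⊥ ∧ B ≠ ⊥ ∧ IsEmpty (A ≃* B)) :=
  ⟨normal_member_iff hF, fun N _ => compl_iff hF N, fun N _ => no_compl_iff hF N,
    card_no_compl hF, fun N _ hQ 𝒜 h => unique_of_no_free hF N hQ h, non_iso hF⟩

end Pool.Agent.Results.MP_c23b5e_al.FreeGroups
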